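import Pool.Agent.Lib.helper30.SumG

set_option autoImplicit false

namespace Pool.Agent.Results.MP_520ea7_co.NoMinimal

/-- There is a simple graph on 8 vertices that has a sum labeling, while none of its sum
labelings uses the label `1`. -/
theorem result :
    ∃ G : SimpleGraph (Fin 8),
      (∃ l : Fin 8 → ℕ, (∀ v, 0 < l v) ∧ Function.Injective l ∧
        ∀ u v, u ≠ v → (G.Adj u v ↔ ∃ w, l w = l u + l v)) ∧
      ∀ l : Fin 8 → ℕ, (∀ v, 0 < l v) → Function.Injective l →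
        (∀ u v, u ≠ v → (G.Adj u v ↔ ∃ w, l w = l u + l v)) → ∀ u, l u ≠ 1 :=
  ⟨Pool.Agent.Lib.Helper30.SumG.G, ⟨_, Pool.Agent.Lib.Helper30.SumG.main⟩,
    Pool.Agent.Lib.Helper30.SumG.none⟩

end Pool.Agent.Results.MP_520ea7_co.NoMinimal
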